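import Mathlib

set_option autoImplicit false

namespace Pool.Agent.H.MP_4e0707_co

open Filter Topology Finset

lemma hur {ι : Type} (s : Finset ι) (φ : ι → ℂ → ℂ) (hφ : ∀ i, Differentiable ℂ (φ i))
    (c : ℕ → ι → ℂ) (d : ι → ℂ) (hc : ∀ i ∈ s, Tendsto (fun n => c n i) atTop (𝓝 (d i)))
    (U : Set ℂ) (hU : IsOpen U) (w : ℂ) (hw : w ∈ U) (h0 : ∑ i ∈ s, d i * φ i w = 0)
    (v : ℂ) (hv : ∑ i ∈ s, d i * φ i v ≠ 0) :
    ∀ᶠ n in atTop, ∃ z ∈ U, ∑ i ∈ s, c n i * φ i z = 0 := by
  set g : ℂ → ℂ := fun z => ∑ i ∈ s, d i * φ i z with hg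
  have hgd : Differentiable ℂ g := by
    apply Differentiable.fun_sum; intro i _; exact (hφ i).const_mul _
  have han : AnalyticOnNhd ℂ g Set.univ := fun z _ => hgd.analyticAt z
  have hne : ∀ᶠ z in 𝓝[≠] w, g z ≠ 0 := by
    rcases (hgd.analyticAt w).eventually_eq_zero_or_eventually_ne_zero with h | h
    · exact absurd (han.eqOn_zero_of_preconnected_of_eventuallyEq_zero isPreconnected_univ
        (Set.mem_univ w) h (Set.mem_univ v)) hv
    · exact h
  rw [eventually_nhdsWithin_iff] at hne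
  obtain ⟨ρ, hρ, hb⟩ := Metric.nhds_basis_closedBall.mem_iff.1 (hne.and (hU.mem_nhds hw))
  have hsph : ∀ z ∈ Metric.sphere w ρ, g z ≠ 0 := by
    intro z hz
    apply (hb (Metric.sphere_subset_closedBall hz)).1
    rintro rfl
    simp at hz; linarith
  obtain ⟨z₀, hz₀, hmin⟩ := (isCompact_sphere w ρ).exists_isMinOn
    (NormedSpace.sphere_nonempty.2 hρ.le) (hgd.continuous.norm.continuousOn)
  set μ := ‖g z₀‖ with hμ
  have hμ0 : 0 < μ := norm_pos_iff.2 (hsph z₀ hz₀)
  have hM : ∀ i, ∃ M : ℝ, ∀ z ∈ Metric.closedBall w ρ, ‖φ i z‖ ≤ M := fun i =>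
    (isCompact_closedBall w ρ).exists_bound_of_continuousOn (hφ i).continuous.continuousOn
  choose M hM using hM
  have ht : Tendsto (fun n => ∑ i ∈ s, ‖c n i - d i‖ * M i) atTop (𝓝 0) := by
    have : Tendsto (fun n => ∑ i ∈ s, ‖c n i - d i‖ * M i) atTop (𝓝 (∑ i ∈ s, 0 * M i)) := by
      apply tendsto_finsetSum; intro i hi
      exact (tendsto_iff_norm_sub_tendsto_zero.1 (hc i hi)).mul_const _
    simpa using this
  filter_upwards [ht.eventually (gt_mem_nhds (half_pos hμ0))] with n hn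
  set f : ℂ → ℂ := fun z => ∑ i ∈ s, c n i * φ i z with hf
  have hfd : Differentiable ℂ f := by
    apply Differentiable.fun_sum; intro i _; exact (hφ i).const_mul _
  have hclose : ∀ z ∈ Metric.closedBall w ρ, ‖f z - g z‖ < μ / 2 := by
    intro z hz
    refine lt_of_le_of_lt ?_ hn
    simp only [hf, hg]
    rw [← sum_sub_distrib]
    refine (norm_sum_le _ _).trans (sum_le_sum fun i _ => ?_)
    rw [← sub_mul, norm_mul]
    exact mul_le_mul_of_nonneg_left (hM i z hz) (norm_nonneg _)
  by_contra hcon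
  push Not at hcon
  have hnz : ∀ z ∈ Metric.closedBall w ρ, f z ≠ 0 := fun z hz => hcon z (hb hz).2
  have hd : DiffContOnCl ℂ (fun z => (f z)⁻¹) (Metric.ball w ρ) := by
    apply DifferentiableOn.diffContOnCl
    rw [closure_ball w hρ.ne']
    exact hfd.differentiableOn.inv hnz
  have key := Complex.norm_le_of_forall_mem_frontier_norm_le Metric.isBounded_ball hd
    (C := (μ / 2)⁻¹) (z := w) (by
      intro z hz
      rw [frontier_ball w hρ.ne'] at hz
      have h1 := hclose z (Metric.sphere_subset_closedBall hz)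
      have h2 : μ ≤ ‖g z‖ := hmin hz
      have h3 : ‖g z‖ ≤ ‖f z‖ + ‖f z - g z‖ := by
        have := norm_sub_le (f z) (f z - g z); simpa using this
      rw [norm_inv]
      exact inv_anti₀ (half_pos hμ0) (by linarith))
    (subset_closure (Metric.mem_ball_self hρ))
  have h1 := hclose w (Metric.mem_closedBall_self hρ.le)
  have h2 : g w = 0 := h0
  rw [h2, sub_zero] at h1
  rw [norm_inv] at key
  have h3 : 0 < ‖f w‖ := norm_pos_iff.2 (hnz w (Metric.mem_closedBall_self hρ.le))
  have := (inv_le_inv₀ h3 (half_pos hμ0)).1 key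
  linarith

lemma qlim (a : ℕ) : Tendsto (fun p : ℕ => ((p + a).factorial : ℝ) / (p.factorial * (p : ℝ) ^ a))
    atTop (𝓝 1) := by
  induction a with
  | zero =>
    apply tendsto_const_nhds.congr
    intro p
    have : (p.factorial : ℝ) ≠ 0 := by positivity
    simp [this]
  | succ a ih =>
    have h1 : Tendsto (fun p : ℕ => 1 + ((a : ℝ) + 1) / p) atTop (𝓝 (1 + 0)) :=
      tendsto_const_nhds.add (tendsto_const_div_atTop_nhds_zero_nat _)
    have h2 := ih.mul h1
    simp only [add_zero, mul_one] at h2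
    refine h2.congr' ?_
    filter_upwards [eventually_gt_atTop 0] with p hp
    have : (p.factorial : ℝ) ≠ 0 := by positivity
    have : (p : ℝ) ≠ 0 := by positivity
    rw [← add_assoc, Nat.factorial_succ]
    push_cast
    field_simp
    ring

lemma dlim (m l : ℕ) (hl : l ≤ m) :
    Tendsto (fun p : ℕ => (((p.factorial * (p + m).factorial : ℝ) /
      ((p + l).factorial * (p + m - l).factorial) : ℝ) : ℂ)) atTop (𝓝 1) := by
  have h := (qlim m).div ((qlim l).mul (qlim (m - l))) (by norm_num)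
  simp only [mul_one, div_one] at h
  have h2 : Tendsto (fun p : ℕ => ((p.factorial * (p + m).factorial : ℝ) /
      ((p + l).factorial * (p + m - l).factorial) : ℝ)) atTop (𝓝 1) := by
    refine h.congr' ?_
    filter_upwards [eventually_gt_atTop 0] with p hp
    have : (p.factorial : ℝ) ≠ 0 := by positivity
    have : (p : ℝ) ≠ 0 := by positivity
    have : ((p + l).factorial : ℝ) ≠ 0 := by positivity
    have : ((p + (m - l)).factorial : ℝ) ≠ 0 := by positivity
    have e : (p : ℝ) ^ m = p ^ l * p ^ (m - l) := by rw [← pow_add]; congr 1; omega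
    rw [Nat.add_sub_assoc hl, Pi.div_apply, e]
    field_simp
  exact (Complex.continuous_ofReal.tendsto 1).comp h2

lemma clim (i : ℕ) : Tendsto (fun n : ℕ => (n.choose i : ℝ) * (1 / (n : ℝ)) ^ i) atTop
    (𝓝 (1 / i.factorial)) := by
  have := ProbabilityTheory.tendsto_choose_mul_pow_atTop (p := fun n : ℕ => 1 / (n : ℝ)) (r := 1) i (by
    apply tendsto_const_nhds.congr'
    filter_upwards [eventually_gt_atTop 0] with p hp
    have : (p : ℝ) ≠ 0 := by positivity
    field_simp)
  simpa using this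

/-- the normalised independence polynomial -/
noncomputable def F (p m n : ℕ) (t : ℂ) : ℂ :=
  ∑ x ∈ (range (p + m + 1) ×ˢ range (p + m + 1)).filter (fun x => x.1 + x.2 ≤ 2 * p + m),
    (((p.factorial * (p + m).factorial : ℝ) * ((n.choose x.1 : ℝ) * (1 / (n : ℝ)) ^ x.1) *
      ((n.choose x.2 : ℝ) * (1 / (n : ℝ)) ^ x.2) * (1 / (n : ℝ)) ^ (2 * p + m - (x.1 + x.2)) : ℝ) : ℂ) *
      ((t - 2) ^ (2 * p + m - (x.1 + x.2)) * t ^ (p + m - x.2))

lemma exists_root (ε : ℝ) (hε : 0 < ε) :
    ∃ p m n : ℕ, 0 < n ∧ ∃ t : ℂ, ‖t - 1‖ < ε ∧ t ≠ 1 ∧ F p m n t = 0 := by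
  set U : Set ℂ := Metric.ball 1 ε \ {1} with hUdef
  have hU : IsOpen U := Metric.isOpen_ball.sdiff isClosed_singleton
  obtain ⟨m, hm1, hm⟩ : ∃ m : ℕ, 1 ≤ m ∧
      ‖Complex.exp (2 * Real.pi * Complex.I / (m + 1 : ℕ)) - 1‖ < ε := by
    have h1 : Tendsto (fun m : ℕ => (2 * Real.pi * Complex.I / (m + 1 : ℕ) : ℂ)) atTop (𝓝 0) :=
      (tendsto_const_div_atTop_nhds_zero_nat _).comp (tendsto_add_atTop_nat 1)
    have h2 := (Complex.continuous_exp.tendsto 0).comp h1
    rw [Complex.exp_zero] at h2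
    have h3 := (tendsto_iff_norm_sub_tendsto_zero.1 h2).eventually (gt_mem_nhds hε)
    obtain ⟨m, hm⟩ := ((eventually_ge_atTop 1).and h3).exists
    exact ⟨m, hm.1, hm.2⟩
  have hprim := Complex.isPrimitiveRoot_exp (m + 1) (by omega)
  set ω := Complex.exp (2 * Real.pi * Complex.I / (m + 1 : ℕ))
  have hωU : ω ∈ U := ⟨by simpa [dist_eq_norm] using hm, hprim.ne_one (by omega)⟩
  have s1 := hur (range (m + 1)) (fun l t => t ^ l) (fun l => differentiable_pow l)
    (fun p l => (((p.factorial * (p + m).factorial : ℝ) /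
      ((p + l).factorial * (p + m - l).factorial) : ℝ) : ℂ)) (fun _ => 1)
    (fun l hl => dlim m l (by simp at hl; omega)) U hU ω hωU
    (by simpa using hprim.geom_sum_eq_zero (by omega)) 0 (by simp [sum_range_succ'])
  obtain ⟨p, w, hw, hw0⟩ := s1.exists
  have hlim : ∀ t : ℂ, ∑ x ∈ (range (p + m + 1) ×ˢ range (p + m + 1)).filter
      (fun x => x.1 + x.2 ≤ 2 * p + m),
      (((p.factorial * (p + m).factorial : ℝ) * (1 / x.1.factorial) * (1 / x.2.factorial) *
        0 ^ (2 * p + m - (x.1 + x.2)) : ℝ) : ℂ) *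
      ((t - 2) ^ (2 * p + m - (x.1 + x.2)) * t ^ (p + m - x.2)) =
      ∑ l ∈ range (m + 1), (((p.factorial * (p + m).factorial : ℝ) /
      ((p + l).factorial * (p + m - l).factorial) : ℝ) : ℂ) * t ^ l := by
    intro t
    symm
    apply sum_bij_ne_zero (fun l _ _ => (p + l, p + m - l))
    · intro l hl _
      simp only [mem_filter, mem_product, mem_range] at hl ⊢
      omega
    · intro a _ _ b _ _ h
      simp only [Prod.mk.injEq] at h
      omega
    · rintro ⟨i, j⟩ hx hne
      simp only [mem_filter, mem_product, mem_range] at hx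
      have h0 : 2 * p + m - (i + j) = 0 := by
        by_contra h
        apply hne
        simp [h]
      have hi : p + (i - p) = i := by omega
      have hj : p + m - (i - p) = j := by omega
      have hk : p + m - j = i - p := by omega
      refine ⟨i - p, by simp; omega, ?_, by rw [hi, hj]⟩
      rw [hi, hj]
      simp only [h0, hk] at hne
      intro hh; apply hne
      rw [← hh]; push_cast; ring
    · intro l hl _
      simp only [mem_range] at hl
      have h0 : 2 * p + m - (p + l + (p + m - l)) = 0 := by omega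
      have hk : p + m - (p + m - l) = l := by omega
      simp only [h0, hk]
      push_cast; ring
  have s2 := hur ((range (p + m + 1) ×ˢ range (p + m + 1)).filter (fun x => x.1 + x.2 ≤ 2 * p + m))
    (fun x t => (t - 2) ^ (2 * p + m - (x.1 + x.2)) * t ^ (p + m - x.2))
    (fun x => by fun_prop)
    (fun n x => (((p.factorial * (p + m).factorial : ℝ) * ((n.choose x.1 : ℝ) * (1 / (n : ℝ)) ^ x.1) *
      ((n.choose x.2 : ℝ) * (1 / (n : ℝ)) ^ x.2) * (1 / (n : ℝ)) ^ (2 * p + m - (x.1 + x.2)) : ℝ) : ℂ))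
    (fun x => (((p.factorial * (p + m).factorial : ℝ) * (1 / x.1.factorial) * (1 / x.2.factorial) *
        0 ^ (2 * p + m - (x.1 + x.2)) : ℝ) : ℂ))
    (fun x _ => (Complex.continuous_ofReal.tendsto _).comp
      ((((clim x.1).const_mul _).mul (clim x.2)).mul
        ((tendsto_const_div_atTop_nhds_zero_nat 1).pow _)))
    U hU w hw (by rw [hlim]; exact hw0) 0 (by
      rw [hlim]
      have : (p.factorial : ℂ) ≠ 0 := by exact_mod_cast p.factorial_ne_zero
      have : ((p + m).factorial : ℂ) ≠ 0 := by exact_mod_cast (p + m).factorial_ne_zero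
      simp [sum_range_succ', *])
  obtain ⟨n, hn, t, ht, ht0⟩ := ((eventually_gt_atTop 0).and s2).exists
  exact ⟨p, m, n, hn, t, by simpa [dist_eq_norm] using ht.1, ht.2, ht0⟩

end Pool.Agent.H.MP_4e0707_co
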